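import Pool.Agent.Lib_helper31.N3L.Basic

/-!
# Arcs in the affine plane over `ZMod p`
-/

set_option autoImplicit false

namespace Pool.Agent.Lib_helper31.N3L

variable {p : ℕ} [Fact p.Prime]

/-- `a, b, c` are collinear iff this vanishes. -/
def cross {K : Type*} [CommRing K] (a b c : K × K) : K :=
  (b.1 - a.1) * (c.2 - a.2) - (b.2 - a.2) * (c.1 - a.1)

/-- No three distinct points of `C` are collinear. -/
def IsArc (C : Finset (ZMod p × ZMod p)) : Prop :=
  ∀ a ∈ C, ∀ b ∈ C, ∀ c ∈ C, a ≠ b → a ≠ c → b ≠ c → cross a b c ≠ 0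

/-- direction of `PQ` -/
noncomputable def dir (P Q : ZMod p × ZMod p) : Option (ZMod p) :=
  if Q.1 = P.1 then none else some ((Q.2 - P.2) / (Q.1 - P.1))

theorem cross_of_dir {P Q Q' : ZMod p × ZMod p} (h : dir P Q = dir P Q') : cross P Q Q' = 0 := by
  unfold dir at h
  unfold cross
  split_ifs at h with h1 h2 h2
  · rw [h1, h2]; ring
  · have h3 : Q.1 - P.1 ≠ 0 := sub_ne_zero.mpr h1
    have h4 : Q'.1 - P.1 ≠ 0 := sub_ne_zero.mpr h2
    have h5 := Option.some.inj h
    rw [div_eq_div_iff h3 h4] at h5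
    linear_combination -h5

theorem dir_injOn {C : Finset (ZMod p × ZMod p)} (hC : IsArc C) {P : ZMod p × ZMod p}
    (hP : P ∈ C) : Set.InjOn (dir P) (C.erase P : Set (ZMod p × ZMod p)) := by
  intro Q hQ Q' hQ' h
  by_contra hne
  have h1 := Finset.mem_erase.mp (Finset.mem_coe.mp hQ)
  have h2 := Finset.mem_erase.mp (Finset.mem_coe.mp hQ')
  exact hC P hP Q h1.2 Q' h2.2 h1.1.symm h2.1.symm hne (cross_of_dir h)

theorem arc_card_le {C : Finset (ZMod p × ZMod p)} (hC : IsArc C) : C.card ≤ p + 2 := by
  classical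
  rcases C.eq_empty_or_nonempty with rfl | ⟨P, hP⟩
  · simp
  · have h1 : ((C.erase P).image (dir P)).card = (C.erase P).card :=
      Finset.card_image_of_injOn (dir_injOn hC hP)
    have h2 : ((C.erase P).image (dir P)).card ≤ Fintype.card (Option (ZMod p)) :=
      Finset.card_le_univ _
    rw [Fintype.card_option, ZMod.card] at h2
    have h3 := Finset.card_erase_of_mem hP
    omega

/-- A point alone in its row and column forces `|C| ≤ p`, and in case of equality every other
direction is used. -/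
theorem arc_single {C : Finset (ZMod p × ZMod p)} (hC : IsArc C) {P : ZMod p × ZMod p}
    (hP : P ∈ C) (h1 : ∀ Q ∈ C, Q ≠ P → Q.1 ≠ P.1) (h2 : ∀ Q ∈ C, Q ≠ P → Q.2 ≠ P.2) :
    C.card ≤ p ∧ (C.card = p → ∃ Q ∈ C, Q ≠ P ∧ Q.2 - Q.1 = P.2 - P.1) := by
  classical
  have hp2 : 2 ≤ p := (Fact.out : p.Prime).two_le
  have hi : ((C.erase P).image (dir P)).card = (C.erase P).card :=
    Finset.card_image_of_injOn (dir_injOn hC hP)
  have hsub : (C.erase P).image (dir P) ⊆
      ((Finset.univ : Finset (Option (ZMod p))).erase none).erase (some 0) := by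
    intro d hd
    obtain ⟨Q, hQ, rfl⟩ := Finset.mem_image.mp hd
    have hQ' := Finset.mem_erase.mp hQ
    have hx := h1 Q hQ'.2 hQ'.1
    have hy := h2 Q hQ'.2 hQ'.1
    rw [Finset.mem_erase, Finset.mem_erase]
    refine ⟨?_, ?_, Finset.mem_univ _⟩
    · rw [dir, if_neg hx]
      intro h
      have := Option.some.inj h
      rw [div_eq_zero_iff] at this
      rcases this with h | h
      · exact hy (sub_eq_zero.mp h)
      · exact hx (sub_eq_zero.mp h)
    · rw [dir, if_neg hx]
      simp
  have hcard : (((Finset.univ : Finset (Option (ZMod p))).erase none).erase (some 0)).card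
      = p - 1 := by
    rw [Finset.card_erase_of_mem, Finset.card_erase_of_mem (Finset.mem_univ _), Finset.card_univ,
      Fintype.card_option, ZMod.card]
    · omega
    · rw [Finset.mem_erase]; exact ⟨by simp, Finset.mem_univ _⟩
  have hle := Finset.card_le_card hsub
  rw [hi, hcard, Finset.card_erase_of_mem hP] at hle
  have hpos : 0 < C.card := Finset.card_pos.mpr ⟨P, hP⟩
  refine ⟨by omega, fun hn => ?_⟩
  have heq : (C.erase P).image (dir P) =
      ((Finset.univ : Finset (Option (ZMod p))).erase none).erase (some 0) := by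
    refine Finset.eq_of_subset_of_card_le hsub ?_
    rw [hi, hcard, Finset.card_erase_of_mem hP, hn]
  have h1mem : (some 1 : Option (ZMod p)) ∈ (C.erase P).image (dir P) := by
    rw [heq, Finset.mem_erase, Finset.mem_erase]
    refine ⟨?_, by simp, Finset.mem_univ _⟩
    intro h
    exact one_ne_zero (Option.some.inj h)
  obtain ⟨Q, hQ, hd⟩ := Finset.mem_image.mp h1mem
  have hQ' := Finset.mem_erase.mp hQ
  refine ⟨Q, hQ'.2, hQ'.1, ?_⟩
  have hx := h1 Q hQ'.2 hQ'.1
  rw [dir, if_neg hx] at hd
  have hd' := Option.some.inj hd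
  rw [div_eq_one_iff_eq (sub_ne_zero.mpr hx)] at hd'
  linear_combination hd'

theorem arc_full_card {C : Finset (ZMod p × ZMod p)} (hC : IsArc C) (hn : C.card = p + 2)
    {P : ZMod p × ZMod p} (hP : P ∈ C) : ∃ Q ∈ C, Q ≠ P ∧ Q.2 = P.2 := by
  classical
  have hi : ((C.erase P).image (dir P)).card = (C.erase P).card :=
    Finset.card_image_of_injOn (dir_injOn hC hP)
  have heq : (C.erase P).image (dir P) = Finset.univ := by
    apply Finset.eq_univ_of_card
    rw [hi, Finset.card_erase_of_mem hP, Fintype.card_option, ZMod.card, hn]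
    omega
  have h0 : (some 0 : Option (ZMod p)) ∈ (C.erase P).image (dir P) := by
    rw [heq]; exact Finset.mem_univ _
  obtain ⟨Q, hQ, hd⟩ := Finset.mem_image.mp h0
  have hQ' := Finset.mem_erase.mp hQ
  refine ⟨Q, hQ'.2, hQ'.1, ?_⟩
  unfold dir at hd
  split_ifs at hd with hx
  have hd' := Option.some.inj hd
  rw [div_eq_zero_iff] at hd'
  rcases hd' with h | h
  · exact sub_eq_zero.mp h
  · exact absurd (sub_eq_zero.mp h) hx

/-- Number of points in multiply occupied fibres. -/
theorem multi_card {α β : Type*} [DecidableEq α] [Fintype β] (C : Finset α) (f : α → β)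
    (hf : ∀ b, ∃ a ∈ C, f a = b) (A : Finset α) (hAC : A ⊆ C)
    (hA : ∀ a ∈ A, ∃ a' ∈ C, a' ≠ a ∧ f a' = f a) :
    A.card + 2 * Fintype.card β ≤ 2 * C.card := by
  classical
  choose σ hσC hσf using hf
  have hσinj : Function.Injective σ := fun b b' h => by rw [← hσf b, ← hσf b', h]
  set I : Finset α := Finset.univ.image σ with hI
  have hIC : I ⊆ C := by
    intro a ha
    obtain ⟨b, -, rfl⟩ := Finset.mem_image.mp ha
    exact hσC b
  have hIcard : I.card = Fintype.card β := by
    rw [hI, Finset.card_image_of_injective _ hσinj, Finset.card_univ]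
  set E := C \ I with hE
  have hEcard : E.card = C.card - Fintype.card β := by
    rw [hE, Finset.card_sdiff_of_subset hIC, hIcard]
  have hAsub : A ⊆ E ∪ E.image (fun e => σ (f e)) := by
    intro a ha
    rw [Finset.mem_union]
    by_cases haI : a ∈ I
    · right
      obtain ⟨b, -, rfl⟩ := Finset.mem_image.mp haI
      obtain ⟨a', ha'C, hne, hfe⟩ := hA _ ha
      refine Finset.mem_image.mpr ⟨a', ?_, ?_⟩
      · rw [hE, Finset.mem_sdiff]
        refine ⟨ha'C, fun h => hne ?_⟩
        obtain ⟨b', -, rfl⟩ := Finset.mem_image.mp h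
        rw [hσf, hσf] at hfe
        rw [hfe]
      · show σ (f a') = σ b
        rw [hfe, hσf]
    · left
      rw [hE, Finset.mem_sdiff]
      exact ⟨hAC ha, haI⟩
  have h1 := Finset.card_le_card hAsub
  have h2 := Finset.card_union_le E (E.image fun e => σ (f e))
  have h3 : (E.image fun e => σ (f e)).card ≤ E.card := Finset.card_image_le
  have h4 := Finset.card_le_card hIC
  rw [hIcard] at h4
  omega

/-- An arc in the affine plane of order `p ≥ 5` misses a row or a column. -/
theorem arc_not_full (hp : 5 ≤ p) {C : Finset (ZMod p × ZMod p)} (hC : IsArc C)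
    (hcol : ∀ x, ∃ P ∈ C, P.1 = x) (hrow : ∀ y, ∃ P ∈ C, P.2 = y) : False := by
  classical
  set A := C.filter fun P => ∃ Q ∈ C, Q ≠ P ∧ Q.2 = P.2 with hAdef
  set B := C.filter fun P => ∃ Q ∈ C, Q ≠ P ∧ Q.1 = P.1 with hBdef
  have hA : A.card + 2 * p ≤ 2 * C.card := by
    have := multi_card C (fun P => P.2) hrow A (Finset.filter_subset _ _)
      (fun a ha => (Finset.mem_filter.mp ha).2)
    rwa [ZMod.card] at this
  have hB : B.card + 2 * p ≤ 2 * C.card := by
    have := multi_card C (fun P => P.1) hcol B (Finset.filter_subset _ _)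
      (fun a ha => (Finset.mem_filter.mp ha).2)
    rwa [ZMod.card] at this
  have hle := arc_card_le hC
  have hn2 : C.card ≠ p + 2 := by
    intro hn
    have hAC : A = C := by
      rw [hAdef, Finset.filter_eq_self]
      intro P hP
      exact arc_full_card hC hn hP
    rw [hAC] at hA
    omega
  -- there is a point alone in its row and its column
  have hex : ∃ P ∈ C, P ∉ A ∧ P ∉ B := by
    by_contra hcon
    push Not at hcon
    have hsub : C ⊆ A ∪ B := by
      intro P hP
      rw [Finset.mem_union]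
      by_cases h : P ∈ A
      · exact Or.inl h
      · exact Or.inr (hcon P hP h)
    have h1 := Finset.card_le_card hsub
    have h2 := Finset.card_union_le A B
    omega
  have hsingle : ∀ P ∈ C, P ∉ A → P ∉ B →
      (∀ Q ∈ C, Q ≠ P → Q.1 ≠ P.1) ∧ (∀ Q ∈ C, Q ≠ P → Q.2 ≠ P.2) := by
    intro P hP hPA hPB
    constructor
    · intro Q hQ hne he
      exact hPB (Finset.mem_filter.mpr ⟨hP, Q, hQ, hne, he⟩)
    · intro Q hQ hne he
      exact hPA (Finset.mem_filter.mpr ⟨hP, Q, hQ, hne, he⟩)
  obtain ⟨P, hP, hPA, hPB⟩ := hex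
  have hs := hsingle P hP hPA hPB
  have hcp := (arc_single hC hP hs.1 hs.2).1
  have hCp : C.card = p := by omega
  have hA0 : A = ∅ := Finset.card_eq_zero.mp (by omega)
  have hB0 : B = ∅ := Finset.card_eq_zero.mp (by omega)
  -- every point has exactly one partner on its diagonal
  have hpart : ∀ P ∈ C, ∃ Q ∈ C, Q ≠ P ∧ Q.2 - Q.1 = P.2 - P.1 := by
    intro P hP
    have hs := hsingle P hP (by rw [hA0]; simp) (by rw [hB0]; simp)
    exact (arc_single hC hP hs.1 hs.2).2 hCp
  have hfib : ∀ b ∈ C.image (fun P => P.2 - P.1),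
      (C.filter fun P => P.2 - P.1 = b).card = 2 := by
    intro b hb
    obtain ⟨P, hP, rfl⟩ := Finset.mem_image.mp hb
    obtain ⟨Q, hQ, hne, he⟩ := hpart P hP
    apply le_antisymm
    · by_contra hc
      push Not at hc
      obtain ⟨a, ha, b, hb, c, hc, hab, hac, hbc⟩ := Finset.two_lt_card.mp hc
      rw [Finset.mem_filter] at ha hb hc
      refine hC a ha.1 b hb.1 c hc.1 hab hac hbc ?_
      unfold cross
      have e1 : b.2 - a.2 = b.1 - a.1 := by linear_combination hb.2 - ha.2
      have e2 : c.2 - a.2 = c.1 - a.1 := by linear_combination hc.2 - ha.2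
      rw [e1, e2]; ring
    · rw [← Finset.card_pair hne]
      apply Finset.card_le_card
      intro z hz
      rw [Finset.mem_insert, Finset.mem_singleton] at hz
      rw [Finset.mem_filter]
      rcases hz with rfl | rfl
      · exact ⟨hQ, he⟩
      · exact ⟨hP, rfl⟩
  have hsum := Finset.card_eq_sum_card_image (fun P : ZMod p × ZMod p => P.2 - P.1) C
  rw [Finset.sum_congr rfl hfib, Finset.sum_const, smul_eq_mul, hCp] at hsum
  have hodd := (Fact.out : p.Prime).eq_two_or_odd
  omega

end Pool.Agent.Lib_helper31.N3L
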