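import Mathlib

/-!
# No three in line: basic lemmas
-/

set_option autoImplicit false

namespace Pool.Agent.Lib_helper31.N3L

/-- No three distinct points of `S` lie on a common affine line of `ℝ²`. -/
def NoThree (S : Finset (ℕ × ℕ)) : Prop :=
  ∀ p ∈ S, ∀ q ∈ S, ∀ r ∈ S, p ≠ q → p ≠ r → q ≠ r →
    ¬ Collinear ℝ ({((p.1 : ℝ), (p.2 : ℝ)), ((q.1 : ℝ), (q.2 : ℝ)),
        ((r.1 : ℝ), (r.2 : ℝ))} : Set (ℝ × ℝ))

theorem collinear_of_line {a b c : ℝ} (hab : a ≠ 0 ∨ b ≠ 0) {P Q R : ℝ × ℝ}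
    (hP : a * P.1 + b * P.2 = c) (hQ : a * Q.1 + b * Q.2 = c) (hR : a * R.1 + b * R.2 = c) :
    Collinear ℝ ({P, Q, R} : Set (ℝ × ℝ)) := by
  have hd : a ^ 2 + b ^ 2 ≠ 0 := by
    rcases hab with h | h
    · have := sq_pos_of_ne_zero h
      positivity
    · have := sq_pos_of_ne_zero h
      positivity
  have key : ∀ T : ℝ × ℝ, a * T.1 + b * T.2 = c →
      ∃ r : ℝ, T = r • ((b, -a) : ℝ × ℝ) +ᵥ P := by
    intro T hT
    refine ⟨(b * (T.1 - P.1) - a * (T.2 - P.2)) / (a ^ 2 + b ^ 2), ?_⟩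
    have h1 : a * (T.1 - P.1) + b * (T.2 - P.2) = 0 := by linarith
    ext
    · simp only [vadd_eq_add, Prod.fst_add, Prod.smul_fst, smul_eq_mul]
      field_simp
      linear_combination a * h1
    · simp only [vadd_eq_add, Prod.snd_add, Prod.smul_snd, smul_eq_mul]
      field_simp
      linear_combination b * h1
  rw [collinear_iff_of_mem (p₀ := P) (by simp)]
  refine ⟨(b, -a), ?_⟩
  intro T hT
  simp only [Set.mem_insert_iff, Set.mem_singleton_iff] at hT
  rcases hT with rfl | rfl | rfl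
  · exact key _ hP
  · exact key _ hQ
  · exact key _ hR

theorem fiber_le_two {S : Finset (ℕ × ℕ)} (h : NoThree S) (a b c : ℤ) (hab : a ≠ 0 ∨ b ≠ 0) :
    (S.filter fun s => a * (s.1 : ℤ) + b * (s.2 : ℤ) = c).card ≤ 2 := by
  by_contra hc
  push Not at hc
  obtain ⟨p, hp, q, hq, r, hr, hpq, hpr, hqr⟩ := Finset.two_lt_card.mp hc
  simp only [Finset.mem_filter] at hp hq hr
  have hab' : (a : ℝ) ≠ 0 ∨ (b : ℝ) ≠ 0 := by
    rcases hab with h | h
    · exact Or.inl (by exact_mod_cast h)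
    · exact Or.inr (by exact_mod_cast h)
  refine h p hp.1 q hq.1 r hr.1 hpq hpr hqr
    (collinear_of_line (a := (a : ℝ)) (b := (b : ℝ)) (c := (c : ℝ)) hab' ?_ ?_ ?_)
  · have h3 : ((a * (p.1 : ℤ) + b * (p.2 : ℤ) : ℤ) : ℝ) = c := by rw [hp.2]
    push_cast at h3
    exact h3
  · have h3 : ((a * (q.1 : ℤ) + b * (q.2 : ℤ) : ℤ) : ℝ) = c := by rw [hq.2]
    push_cast at h3
    exact h3
  · have h3 : ((a * (r.1 : ℤ) + b * (r.2 : ℤ) : ℤ) : ℝ) = c := by rw [hr.2]
    push_cast at h3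
    exact h3

/-- at most two points in a row -/
theorem row_le_two {S : Finset (ℕ × ℕ)} (h : NoThree S) (y : ℕ) :
    (S.filter fun s => s.2 = y).card ≤ 2 := by
  have := fiber_le_two h 0 1 (y : ℤ) (Or.inr one_ne_zero)
  refine le_trans (Finset.card_le_card ?_) this
  intro s hs
  simp only [Finset.mem_filter] at hs ⊢
  refine ⟨hs.1, ?_⟩
  rw [hs.2]; ring

/-- at most two points in a column -/
theorem col_le_two {S : Finset (ℕ × ℕ)} (h : NoThree S) (x : ℕ) :
    (S.filter fun s => s.1 = x).card ≤ 2 := by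
  have := fiber_le_two h 1 0 (x : ℤ) (Or.inl one_ne_zero)
  refine le_trans (Finset.card_le_card ?_) this
  intro s hs
  simp only [Finset.mem_filter] at hs ⊢
  refine ⟨hs.1, ?_⟩
  rw [hs.2]; ring

/-- number of points of `S` whose rows lie in `T` -/
theorem card_le_of_rows {S : Finset (ℕ × ℕ)} (h : NoThree S) (T : Finset ℕ)
    (hT : ∀ s ∈ S, s.2 ∈ T) : S.card ≤ 2 * T.card := by
  exact Finset.card_le_mul_card_image_of_maps_to (f := fun s : ℕ × ℕ => s.2) hT 2
    fun y _ => row_le_two h y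

theorem card_le_of_cols {S : Finset (ℕ × ℕ)} (h : NoThree S) (T : Finset ℕ)
    (hT : ∀ s ∈ S, s.1 ∈ T) : S.card ≤ 2 * T.card := by
  exact Finset.card_le_mul_card_image_of_maps_to (f := fun s : ℕ × ℕ => s.1) hT 2
    fun y _ => col_le_two h y

theorem residue_count {p : ℕ} [NeZero p] (N : ℕ) (ρ : ZMod p) :
    N / p ≤ ((Finset.Icc 1 N).filter fun y : ℕ => (y : ZMod p) = ρ).card ∧
      ((Finset.Icc 1 N).filter fun y : ℕ => (y : ZMod p) = ρ).card ≤ N / p + 1 := by
  have hp : 0 < p := Nat.pos_of_ne_zero (NeZero.ne p)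
  have heq : ((Finset.Icc 1 N).filter fun y : ℕ => (y : ZMod p) = ρ)
      = ((Finset.range N).filter fun z : ℕ => z ≡ (ρ - 1).val [MOD p]).map
        ⟨fun z => z + 1, add_left_injective 1⟩ := by
    ext y
    simp only [Finset.mem_filter, Finset.mem_Icc, Finset.mem_map, Finset.mem_range,
      Function.Embedding.coeFn_mk]
    constructor
    · rintro ⟨⟨h1, h2⟩, h3⟩
      refine ⟨y - 1, ⟨by omega, ?_⟩, by omega⟩
      rw [← ZMod.natCast_eq_natCast_iff, ZMod.natCast_val, ZMod.cast_id', id, ← h3,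
        Nat.cast_sub h1, Nat.cast_one]
    · rintro ⟨z, ⟨h1, h2⟩, rfl⟩
      refine ⟨⟨by omega, by omega⟩, ?_⟩
      rw [← ZMod.natCast_eq_natCast_iff, ZMod.natCast_val, ZMod.cast_id', id] at h2
      rw [Nat.cast_add, h2, Nat.cast_one]; ring
  rw [heq, Finset.card_map, ← Nat.count_eq_card_filter_range, Nat.count_modEq_card N hp]
  split_ifs <;> omega

/-- Counting integers of `[1, N]` in a set of residue classes. -/
theorem count_residues_le {p : ℕ} [NeZero p] (N : ℕ) (R : Finset (ZMod p)) :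
    ((Finset.Icc 1 N).filter fun y : ℕ => (y : ZMod p) ∈ R).card + (N / p) * (p - R.card) ≤ N ∧
    ((Finset.Icc 1 N).filter fun y : ℕ => (y : ZMod p) ∈ R).card ≤ (N / p + 1) * R.card := by
  classical
  have hsum : ∀ T : Finset (ZMod p),
      ((Finset.Icc 1 N).filter fun y : ℕ => (y : ZMod p) ∈ T).card
        = ∑ ρ ∈ T, ((Finset.Icc 1 N).filter fun y : ℕ => (y : ZMod p) = ρ).card := by
    intro T
    rw [Finset.card_eq_sum_card_fiberwise (f := fun y : ℕ => (y : ZMod p)) (t := T)]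
    · refine Finset.sum_congr rfl fun ρ hρ => ?_
      congr 1
      ext y
      simp only [Finset.mem_filter]
      constructor
      · rintro ⟨⟨h1, _⟩, h2⟩; exact ⟨h1, h2⟩
      · rintro ⟨h1, h2⟩; exact ⟨⟨h1, h2 ▸ hρ⟩, h2⟩
    · intro y hy
      simpa using (Finset.mem_filter.mp hy).2
  constructor
  · have h1 := Finset.card_filter_add_card_filter_not (s := Finset.Icc 1 N)
      (fun y : ℕ => (y : ZMod p) ∈ R)
    have h2 : ((Finset.Icc 1 N).filter fun y : ℕ => ¬ (y : ZMod p) ∈ R)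
        = (Finset.Icc 1 N).filter fun y : ℕ => (y : ZMod p) ∈ Rᶜ := by
      ext y; simp
    have h3 : (N / p) * (p - R.card) ≤
        ((Finset.Icc 1 N).filter fun y : ℕ => ¬ (y : ZMod p) ∈ R).card := by
      rw [h2, hsum]
      calc (N / p) * (p - R.card) = ∑ ρ ∈ Rᶜ, N / p := by
            rw [Finset.sum_const, Finset.card_compl, ZMod.card, smul_eq_mul, mul_comm]
        _ ≤ _ := Finset.sum_le_sum fun ρ _ => (residue_count N ρ).1
    have h4 : (Finset.Icc 1 N).card = N := by simp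
    omega
  · rw [hsum]
    calc ∑ ρ ∈ R, ((Finset.Icc 1 N).filter fun y : ℕ => (y : ZMod p) = ρ).card
        ≤ ∑ ρ ∈ R, (N / p + 1) := Finset.sum_le_sum fun ρ _ => (residue_count N ρ).2
      _ = _ := by rw [Finset.sum_const, smul_eq_mul, mul_comm]

end Pool.Agent.Lib_helper31.N3L
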