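import Pool.Agent.Lib_helper31.N3L.Basic

/-!
# Second moments of integers in few residue classes
-/

set_option autoImplicit false

namespace Pool.Agent.Lib_helper31.N3L

/-- `b` distinct positive multiples of `q`: the sum of squares is at least `q² ∑ k²`. -/
theorem sum_sq_pos_multiples (q : ℤ) (hq : 0 ≤ q) (B : Finset ℤ)
    (hB : ∀ x ∈ B, ∃ k : ℤ, 0 < k ∧ x = q * k) :
    (q : ℝ) ^ 2 * ((B.card : ℝ) * (B.card + 1) * (2 * B.card + 1) / 6)
      ≤ ∑ x ∈ B, (x : ℝ) ^ 2 := by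
  classical
  rcases hq.eq_or_lt with rfl | hqpos
  · simp only [Int.cast_zero, ne_eq, OfNat.ofNat_ne_zero, not_false_eq_true, zero_pow, zero_mul]
    exact Finset.sum_nonneg fun x _ => sq_nonneg _
  induction B using Finset.induction_on_max with
  | empty => simp
  | insert M B hM ih =>
    have hMB : M ∉ B := fun h => lt_irrefl _ (hM M h)
    have hB' : ∀ x ∈ B, ∃ k : ℤ, 0 < k ∧ x = q * k := fun x hx =>
      hB x (Finset.mem_insert_of_mem hx)
    have ih' := ih hB'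
    rw [Finset.sum_insert hMB, Finset.card_insert_of_notMem hMB]
    obtain ⟨k, hk, hMk⟩ := hB M (Finset.mem_insert_self _ _)
    -- `M ≥ q (|B| + 1)`
    have hcard : (B.card : ℤ) + 1 ≤ k := by
      have hsub : B.image (fun x => x / q) ⊆ Finset.Ico 1 k := by
        intro y hy
        obtain ⟨x, hx, rfl⟩ := Finset.mem_image.mp hy
        obtain ⟨j, hj, rfl⟩ := hB' x hx
        have h1 : q * j < q * k := by rw [← hMk]; exact hM _ hx
        have h2 : j < k := lt_of_mul_lt_mul_left h1 hq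
        rw [Int.mul_ediv_cancel_left _ hqpos.ne', Finset.mem_Ico]
        exact ⟨by omega, h2⟩
      have hinj : Set.InjOn (fun x : ℤ => x / q) (B : Set ℤ) := by
        intro x hx y hy hxy
        obtain ⟨j, hj, rfl⟩ := hB' x hx
        obtain ⟨i, hi, rfl⟩ := hB' y hy
        simp only [Int.mul_ediv_cancel_left _ hqpos.ne'] at hxy
        rw [hxy]
      have h3 := Finset.card_le_card hsub
      rw [Finset.card_image_of_injOn hinj, Int.card_Ico] at h3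
      omega
    have hMge : (q : ℝ) * ((B.card : ℝ) + 1) ≤ (M : ℝ) := by
      rw [hMk]
      push_cast
      have h4 : (0 : ℝ) ≤ (q : ℝ) := by exact_mod_cast hq
      have h5 : ((B.card : ℝ) + 1) ≤ (k : ℝ) := by exact_mod_cast hcard
      exact mul_le_mul_of_nonneg_left h5 h4
    have h0 : (0 : ℝ) ≤ (q : ℝ) * ((B.card : ℝ) + 1) := by
      have h4 : (0 : ℝ) ≤ (q : ℝ) := by exact_mod_cast hq
      positivity
    have hsq : ((q : ℝ) * ((B.card : ℝ) + 1)) ^ 2 ≤ (M : ℝ) ^ 2 :=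
      pow_le_pow_left₀ h0 hMge 2
    push_cast
    nlinarith [hsq, ih']

/-- The pair sum `∑_{i<j} (u_i - u_j)²`, written as `n ∑ u² - (∑ u)²`, for `n` integers
congruent modulo `q`. -/
theorem pair_sum_ge (q : ℤ) (hq : 0 ≤ q) (A : Finset ℤ)
    (hA : ∀ x ∈ A, ∀ y ∈ A, q ∣ x - y) :
    (q : ℝ) ^ 2 * ((A.card : ℝ) ^ 2 * ((A.card : ℝ) ^ 2 - 1) / 12)
      ≤ A.card * ∑ x ∈ A, (x : ℝ) ^ 2 - (∑ x ∈ A, (x : ℝ)) ^ 2 := by
  classical
  induction A using Finset.induction_on_max with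
  | empty => simp
  | insert M B hM ih =>
    have hMB : M ∉ B := fun h => lt_irrefl _ (hM M h)
    have ih' := ih fun x hx y hy => hA x (Finset.mem_insert_of_mem hx) y
      (Finset.mem_insert_of_mem hy)
    rw [Finset.sum_insert hMB, Finset.sum_insert hMB, Finset.card_insert_of_notMem hMB]
    -- the new pairs
    have hnew : (q : ℝ) ^ 2 * ((B.card : ℝ) * (B.card + 1) * (2 * B.card + 1) / 6)
        ≤ ∑ x ∈ B, ((M : ℝ) - x) ^ 2 := by
      have h1 := sum_sq_pos_multiples q hq (B.image fun x => M - x) (by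
        intro y hy
        obtain ⟨x, hx, rfl⟩ := Finset.mem_image.mp hy
        obtain ⟨k, hk⟩ := hA M (Finset.mem_insert_self _ _) x (Finset.mem_insert_of_mem hx)
        refine ⟨k, ?_, hk⟩
        have h2 : 0 < M - x := by have := hM x hx; omega
        rw [hk] at h2
        by_contra hk0
        push Not at hk0
        nlinarith)
      have hinj : Set.InjOn (fun x : ℤ => M - x) (B : Set ℤ) := fun x _ y _ h => by
        simp only at h; omega
      rw [Finset.card_image_of_injOn hinj, Finset.sum_image hinj] at h1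
      simpa using h1
    have hexp : ∑ x ∈ B, ((M : ℝ) - x) ^ 2
        = B.card * (M : ℝ) ^ 2 - 2 * M * ∑ x ∈ B, (x : ℝ) + ∑ x ∈ B, (x : ℝ) ^ 2 := by
      have : ∀ x ∈ B, ((M : ℝ) - x) ^ 2 = (M : ℝ) ^ 2 - 2 * M * x + (x : ℝ) ^ 2 := by
        intro x _; ring
      rw [Finset.sum_congr rfl this, Finset.sum_add_distrib, Finset.sum_sub_distrib,
        Finset.sum_const, nsmul_eq_mul, ← Finset.mul_sum]
    rw [hexp] at hnew
    push_cast
    nlinarith [hnew, ih']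

/-- `n` integers congruent modulo `q`: `12 ∑ u² ≥ q² (n³ - n)`. -/
theorem sum_sq_residue (q : ℤ) (hq : 0 ≤ q) (A : Finset ℤ)
    (hA : ∀ x ∈ A, ∀ y ∈ A, q ∣ x - y) :
    (q : ℝ) ^ 2 * ((A.card : ℝ) ^ 3 - A.card) ≤ 12 * ∑ x ∈ A, (x : ℝ) ^ 2 := by
  rcases A.eq_empty_or_nonempty with rfl | hne
  · simp
  have h := pair_sum_ge q hq A hA
  have hc : (0 : ℝ) < A.card := by exact_mod_cast Finset.card_pos.mpr hne
  have h2 := sq_nonneg (∑ x ∈ A, (x : ℝ))
  have h3 : (A.card : ℝ) * ((q : ℝ) ^ 2 * ((A.card : ℝ) ^ 3 - A.card))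
      ≤ A.card * (12 * ∑ x ∈ A, (x : ℝ) ^ 2) := by nlinarith
  exact le_of_mul_le_mul_left h3 hc

/-- Integers in at most `D` residue classes modulo `q`. -/
theorem sum_sq_classes {q : ℕ} [NeZero q] (V : Finset ℤ) (R : Finset (ZMod q))
    (hV : ∀ v ∈ V, (v : ZMod q) ∈ R) :
    (q : ℝ) ^ 2 * ((V.card : ℝ) ^ 3 - (R.card : ℝ) ^ 2 * V.card)
      ≤ (R.card : ℝ) ^ 2 * (12 * ∑ v ∈ V, (v : ℝ) ^ 2) := by
  classical
  set a : ZMod q → ℝ := fun ρ => ((V.filter fun v : ℤ => (v : ZMod q) = ρ).card : ℝ) with ha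
  have hcard : (V.card : ℝ) = ∑ ρ ∈ R, a ρ := by
    rw [Finset.card_eq_sum_card_fiberwise (f := fun v : ℤ => (v : ZMod q)) (t := R)
      (fun v hv => hV v hv)]
    push_cast
    rfl
  have hsum : ∑ v ∈ V, (v : ℝ) ^ 2
      = ∑ ρ ∈ R, ∑ v ∈ V.filter (fun v : ℤ => (v : ZMod q) = ρ), (v : ℝ) ^ 2 :=
    (Finset.sum_fiberwise_of_maps_to (fun v hv => hV v hv) _).symm
  have hper : ∀ ρ ∈ R, (q : ℝ) ^ 2 * ((a ρ) ^ 3 - a ρ)
      ≤ 12 * ∑ v ∈ V.filter (fun v : ℤ => (v : ZMod q) = ρ), (v : ℝ) ^ 2 := by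
    intro ρ _
    have := sum_sq_residue (q : ℤ) (Int.natCast_nonneg q)
      (V.filter fun v : ℤ => (v : ZMod q) = ρ) (by
        intro x hx y hy
        rw [Finset.mem_filter] at hx hy
        rw [← ZMod.intCast_zmod_eq_zero_iff_dvd]
        push_cast
        rw [hx.2, hy.2, sub_self])
    simpa using this
  have hcube : (∑ ρ ∈ R, a ρ) ^ 3 ≤ (R.card : ℝ) ^ 2 * ∑ ρ ∈ R, a ρ ^ 3 := by
    have := pow_sum_le_card_mul_sum_pow (s := R) (f := a) (fun i _ => Nat.cast_nonneg _) 2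
    simpa using this
  have htot : (q : ℝ) ^ 2 * (∑ ρ ∈ R, a ρ ^ 3 - V.card) ≤ 12 * ∑ v ∈ V, (v : ℝ) ^ 2 := by
    rw [hsum, hcard, ← Finset.sum_sub_distrib, Finset.mul_sum, Finset.mul_sum]
    exact Finset.sum_le_sum hper
  rw [← hcard] at hcube
  have hq2 : (0 : ℝ) ≤ (q : ℝ) ^ 2 := sq_nonneg _
  have hR2 : (0 : ℝ) ≤ (R.card : ℝ) ^ 2 := sq_nonneg _
  calc (q : ℝ) ^ 2 * ((V.card : ℝ) ^ 3 - (R.card : ℝ) ^ 2 * V.card)
      ≤ (q : ℝ) ^ 2 * ((R.card : ℝ) ^ 2 * ∑ ρ ∈ R, a ρ ^ 3 - (R.card : ℝ) ^ 2 * V.card) :=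
        mul_le_mul_of_nonneg_left (by linarith) hq2
    _ = (R.card : ℝ) ^ 2 * ((q : ℝ) ^ 2 * (∑ ρ ∈ R, a ρ ^ 3 - V.card)) := by ring
    _ ≤ _ := mul_le_mul_of_nonneg_left htot hR2

/-- Second moment of an integer valued function on `S` which takes each value at most twice
and whose values lie in at most `D` residue classes modulo `q`. -/
theorem moment_ge {q : ℕ} [NeZero q] (S : Finset (ℕ × ℕ)) (u : ℕ × ℕ → ℤ)
    (hu : ∀ c, (S.filter fun s => u s = c).card ≤ 2) (R : Finset (ZMod q))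
    (hR : ∀ s ∈ S, (u s : ZMod q) ∈ R) (D : ℝ) (hD : (R.card : ℝ) ≤ D) :
    (q : ℝ) ^ 2 * ((S.card : ℝ) ^ 3 / 4)
      ≤ D ^ 2 * (12 * ∑ s ∈ S, (u s : ℝ) ^ 2 + (q : ℝ) ^ 2 * S.card) := by
  classical
  set V1 := S.image u with hV1
  set V2 := V1.filter fun v => (S.filter fun s => u s = v).card = 2 with hV2
  have hn : ∀ v ∈ V1, ((S.filter fun s => u s = v).card : ℝ) = 1 + if v ∈ V2 then 1 else 0 := by
    intro v hv
    have h1 : 0 < (S.filter fun s => u s = v).card := by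
      obtain ⟨s, hs, rfl⟩ := Finset.mem_image.mp hv
      exact Finset.card_pos.mpr ⟨s, Finset.mem_filter.mpr ⟨hs, rfl⟩⟩
    have h2 := hu v
    by_cases h : v ∈ V2
    · rw [if_pos h, (Finset.mem_filter.mp h).2]; norm_num
    · rw [if_neg h]
      have h3 : (S.filter fun s => u s = v).card ≠ 2 := fun h4 =>
        h (Finset.mem_filter.mpr ⟨hv, h4⟩)
      have h4 : (S.filter fun s => u s = v).card = 1 := by omega
      rw [h4]; norm_num
  have hsumgen : ∀ g : ℤ → ℝ, ∑ s ∈ S, g (u s) = ∑ v ∈ V1, g v + ∑ v ∈ V2, g v := by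
    intro g
    rw [Finset.sum_comp g u]
    have : ∀ v ∈ V1, (S.filter fun s => u s = v).card • g v
        = g v + if v ∈ V2 then g v else 0 := by
      intro v hv
      rw [nsmul_eq_mul, hn v hv, add_mul, one_mul]
      split_ifs <;> simp
    rw [Finset.sum_congr rfl this, Finset.sum_add_distrib]
    congr 1
    rw [← Finset.sum_filter]
    refine Finset.sum_congr ?_ fun _ _ => rfl
    ext v
    simp only [Finset.mem_filter, hV2]
    tauto
  have hcard : (S.card : ℝ) = V1.card + V2.card := by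
    have := hsumgen fun _ => 1
    simpa using this
  have hsum : ∑ s ∈ S, (u s : ℝ) ^ 2 = ∑ v ∈ V1, (v : ℝ) ^ 2 + ∑ v ∈ V2, (v : ℝ) ^ 2 :=
    hsumgen fun v => (v : ℝ) ^ 2
  have hmem1 : ∀ v ∈ V1, (v : ZMod q) ∈ R := by
    intro v hv
    obtain ⟨s, hs, rfl⟩ := Finset.mem_image.mp hv
    exact hR s hs
  have h1 := sum_sq_classes V1 R hmem1
  have h2 := sum_sq_classes V2 R fun v hv => hmem1 v (Finset.mem_filter.mp hv).1
  set a : ℝ := (V1.card : ℝ)
  set b : ℝ := (V2.card : ℝ)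
  have ha : 0 ≤ a := Nat.cast_nonneg _
  have hb : 0 ≤ b := Nat.cast_nonneg _
  set r : ℝ := (R.card : ℝ)
  have hr : 0 ≤ r := Nat.cast_nonneg _
  have hconv : (a + b) ^ 3 / 4 ≤ a ^ 3 + b ^ 3 := by
    nlinarith [mul_nonneg (add_nonneg ha hb) (sq_nonneg (a - b))]
  have hq2 : (0 : ℝ) ≤ (q : ℝ) ^ 2 := sq_nonneg _
  have hfirst : (q : ℝ) ^ 2 * ((a + b) ^ 3 / 4)
      ≤ r ^ 2 * (12 * ∑ s ∈ S, (u s : ℝ) ^ 2 + (q : ℝ) ^ 2 * (a + b)) := by
    rw [hsum]
    have := mul_le_mul_of_nonneg_left hconv hq2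
    nlinarith [h1, h2, this]
  rw [hcard]
  refine hfirst.trans ?_
  have hnn : 0 ≤ 12 * ∑ s ∈ S, (u s : ℝ) ^ 2 + (q : ℝ) ^ 2 * (a + b) := by
    have : 0 ≤ ∑ s ∈ S, (u s : ℝ) ^ 2 := Finset.sum_nonneg fun _ _ => sq_nonneg _
    positivity
  exact mul_le_mul_of_nonneg_right (pow_le_pow_left₀ hr hD 2) hnn

theorem sum_Icc_centered (N : ℕ) :
    ∑ x ∈ Finset.Icc 1 N, ((x : ℝ) - ((N : ℝ) + 1) / 2) ^ 2 = (N : ℝ) * ((N : ℝ) ^ 2 - 1) / 12 := by
  have h1 : ∀ n : ℕ, ∑ x ∈ Finset.Icc 1 n, (x : ℝ) = (n : ℝ) * (n + 1) / 2 := by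
    intro n
    induction n with
    | zero => simp
    | succ n ih => rw [Finset.sum_Icc_succ_top (by omega), ih]; push_cast; ring
  have h2 : ∀ n : ℕ, ∑ x ∈ Finset.Icc 1 n, (x : ℝ) ^ 2 = (n : ℝ) * (n + 1) * (2 * n + 1) / 6 := by
    intro n
    induction n with
    | zero => simp
    | succ n ih => rw [Finset.sum_Icc_succ_top (by omega), ih]; push_cast; ring
  have h3 : ∀ x ∈ Finset.Icc 1 N, ((x : ℝ) - ((N : ℝ) + 1) / 2) ^ 2
      = (x : ℝ) ^ 2 - ((N : ℝ) + 1) * x + (((N : ℝ) + 1) / 2) ^ 2 := fun x _ => by ring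
  rw [Finset.sum_congr rfl h3, Finset.sum_add_distrib, Finset.sum_sub_distrib, ← Finset.mul_sum,
    h1, h2, Finset.sum_const, Nat.card_Icc, nsmul_eq_mul]
  push_cast
  ring

/-- Upper bound for the second moments of the coordinates. -/
theorem coord_moment_le {N : ℕ} {S : Finset (ℕ × ℕ)} (f : ℕ × ℕ → ℕ)
    (hf : ∀ s ∈ S, f s ∈ Finset.Icc 1 N) (h2 : ∀ x, (S.filter fun s => f s = x).card ≤ 2) :
    ∑ s ∈ S, ((f s : ℝ) - ((N : ℝ) + 1) / 2) ^ 2 ≤ (N : ℝ) * ((N : ℝ) ^ 2 - 1) / 6 := by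
  classical
  rw [← Finset.sum_fiberwise_of_maps_to hf]
  calc ∑ x ∈ Finset.Icc 1 N, ∑ s ∈ S.filter (fun s => f s = x),
        ((f s : ℝ) - ((N : ℝ) + 1) / 2) ^ 2
      = ∑ x ∈ Finset.Icc 1 N, (S.filter fun s => f s = x).card •
        ((x : ℝ) - ((N : ℝ) + 1) / 2) ^ 2 := by
        refine Finset.sum_congr rfl fun x _ => ?_
        rw [← Finset.sum_const]
        refine Finset.sum_congr rfl fun s hs => ?_
        rw [(Finset.mem_filter.mp hs).2]
    _ ≤ ∑ x ∈ Finset.Icc 1 N, 2 * ((x : ℝ) - ((N : ℝ) + 1) / 2) ^ 2 := by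
        refine Finset.sum_le_sum fun x _ => ?_
        rw [nsmul_eq_mul]
        exact mul_le_mul_of_nonneg_right (by exact_mod_cast h2 x) (sq_nonneg _)
    _ = (N : ℝ) * ((N : ℝ) ^ 2 - 1) / 6 := by
        rw [← Finset.mul_sum, sum_Icc_centered]; ring

/-- The main inequality: `S` has no three in line, its differences `x - y` lie in at most `D`
classes modulo `q`, and so do its sums `x + y`. -/
theorem main_ineq {q N : ℕ} [NeZero q] {S : Finset (ℕ × ℕ)}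
    (hS : S ⊆ Finset.Icc 1 N ×ˢ Finset.Icc 1 N) (h3 : NoThree S) (R R' : Finset (ZMod q))
    (hR : ∀ s ∈ S, (s.1 : ZMod q) - s.2 ∈ R) (hR' : ∀ s ∈ S, (s.1 : ZMod q) + s.2 ∈ R')
    (D : ℝ) (hD : (R.card : ℝ) ≤ D) (hD' : (R'.card : ℝ) ≤ D) :
    (q : ℝ) ^ 2 * (S.card : ℝ) ^ 3
      ≤ (2 * D) ^ 2 * (4 * (N : ℝ) * ((N : ℝ) ^ 2 - 1) + (q : ℝ) ^ 2 * S.card) := by
  classical
  set u : ℕ × ℕ → ℤ := fun s => (s.1 : ℤ) - s.2 with hu
  set v : ℕ × ℕ → ℤ := fun s => (s.1 : ℤ) + s.2 - (N + 1) with hv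
  have hu2 : ∀ c, (S.filter fun s => u s = c).card ≤ 2 := by
    intro c
    have := fiber_le_two h3 1 (-1) c (Or.inl one_ne_zero)
    refine le_trans (Finset.card_le_card ?_) this
    intro s hs
    rw [Finset.mem_filter] at hs ⊢
    refine ⟨hs.1, ?_⟩
    rw [← hs.2, hu]; ring
  have hv2 : ∀ c, (S.filter fun s => v s = c).card ≤ 2 := by
    intro c
    have := fiber_le_two h3 1 1 (c + (N + 1)) (Or.inl one_ne_zero)
    refine le_trans (Finset.card_le_card ?_) this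
    intro s hs
    rw [Finset.mem_filter] at hs ⊢
    refine ⟨hs.1, ?_⟩
    rw [← hs.2, hv]; ring
  have m1 := moment_ge S u hu2 R (fun s hs => by
    have := hR s hs
    simpa [hu] using this) D hD
  have m2 := moment_ge S v hv2 (R'.image fun x => x - ((N : ZMod q) + 1)) (fun s hs => by
    refine Finset.mem_image.mpr ⟨(s.1 : ZMod q) + s.2, hR' s hs, ?_⟩
    simp [hv]) D (le_trans (by exact_mod_cast Finset.card_image_le) hD')
  have hx := coord_moment_le (N := N) (S := S) (fun s => s.1)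
    (fun s hs => (Finset.mem_product.mp (hS hs)).1) (fun x => col_le_two h3 x)
  have hy := coord_moment_le (N := N) (S := S) (fun s => s.2)
    (fun s hs => (Finset.mem_product.mp (hS hs)).2) (fun x => row_le_two h3 x)
  have hid : ∑ s ∈ S, (u s : ℝ) ^ 2 + ∑ s ∈ S, (v s : ℝ) ^ 2
      = 2 * ∑ s ∈ S, ((s.1 : ℝ) - ((N : ℝ) + 1) / 2) ^ 2
        + 2 * ∑ s ∈ S, ((s.2 : ℝ) - ((N : ℝ) + 1) / 2) ^ 2 := by
    rw [Finset.mul_sum, Finset.mul_sum, ← Finset.sum_add_distrib, ← Finset.sum_add_distrib]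
    refine Finset.sum_congr rfl fun s _ => ?_
    simp only [hu, hv]
    push_cast
    ring
  have hD2 : 0 ≤ D ^ 2 := sq_nonneg D
  have hfin : ∑ s ∈ S, (u s : ℝ) ^ 2 + ∑ s ∈ S, (v s : ℝ) ^ 2
      ≤ 2 * ((N : ℝ) * ((N : ℝ) ^ 2 - 1) / 6) + 2 * ((N : ℝ) * ((N : ℝ) ^ 2 - 1) / 6) := by
    rw [hid]; linarith
  have := mul_le_mul_of_nonneg_left hfin hD2
  nlinarith [m1, m2, this]

end Pool.Agent.Lib_helper31.N3L
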