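import Pool.Agent.Lib_helper31.N3L.Arc
import Pool.Agent.Lib_helper31.N3L.Moment

/-!
# Conics over `ZMod p`
-/

set_option autoImplicit false

namespace Pool.Agent.Lib_helper31.N3L

/-- The quadratic polynomial with coefficients `a, b, c, d, e, f`. -/
def quad {K : Type*} [CommRing K] (a b c d e f x y : K) : K :=
  a * x ^ 2 + b * x * y + c * y ^ 2 + d * x + e * y + f

/-- The zero set contains no affine line. -/
def NoLine {K : Type*} [CommRing K] (a b c d e f : K) : Prop :=
  ∀ x y u v : K, (u ≠ 0 ∨ v ≠ 0) → ∃ t : K, quad a b c d e f (x + t * u) (y + t * v) ≠ 0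

variable {p : ℕ} [Fact p.Prime]

/-- The zero set. -/
def zset (a b c d e f : ZMod p) : Finset (ZMod p × ZMod p) :=
  Finset.univ.filter fun P => quad a b c d e f P.1 P.2 = 0

theorem mem_zset {a b c d e f : ZMod p} {P : ZMod p × ZMod p} :
    P ∈ zset a b c d e f ↔ quad a b c d e f P.1 P.2 = 0 := by
  simp [zset]

theorem isArc_zset {a b c d e f : ZMod p} (h : NoLine a b c d e f) :
    IsArc (zset a b c d e f) := by
  rintro ⟨x, y⟩ hP ⟨x₁, y₁⟩ hQ ⟨x₂, y₂⟩ hR hPQ hPR hQR hcr
  rw [mem_zset] at hP hQ hR
  simp only at hP hQ hR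
  unfold cross at hcr
  simp only at hcr
  have huv : x₁ - x ≠ 0 ∨ y₁ - y ≠ 0 := by
    by_contra hcon
    push Not at hcon
    apply hPQ
    rw [Prod.mk.injEq]
    exact ⟨(sub_eq_zero.mp hcon.1).symm, (sub_eq_zero.mp hcon.2).symm⟩
  obtain ⟨t, ht1, ht2⟩ : ∃ t : ZMod p, x₂ - x = t * (x₁ - x) ∧ y₂ - y = t * (y₁ - y) := by
    rcases huv with hu | hv
    · refine ⟨(x₂ - x) / (x₁ - x), ?_, ?_⟩
      · field_simp
      · field_simp
        linear_combination hcr
    · refine ⟨(y₂ - y) / (y₁ - y), ?_, ?_⟩
      · field_simp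
        linear_combination -hcr
      · field_simp
  have ht0 : t ≠ 0 := by
    rintro rfl
    apply hPR
    rw [Prod.mk.injEq]
    constructor
    · linear_combination -ht1
    · linear_combination -ht2
  have ht1' : t - 1 ≠ 0 := by
    intro h0
    have : t = 1 := by linear_combination h0
    subst this
    apply hQR
    rw [Prod.mk.injEq]
    constructor
    · linear_combination -ht1
    · linear_combination -ht2
  set u := x₁ - x with hu
  set v := y₁ - y with hv
  set A := a * u ^ 2 + b * u * v + c * v ^ 2 with hA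
  set B := 2 * a * x * u + b * (x * v + y * u) + 2 * c * y * v + d * u + e * v with hB
  have hgen : ∀ s : ZMod p, quad a b c d e f (x + s * u) (y + s * v) = A * s ^ 2 + B * s := by
    intro s
    have : quad a b c d e f (x + s * u) (y + s * v)
        = A * s ^ 2 + B * s + quad a b c d e f x y := by
      rw [hA, hB]; unfold quad; ring
    rw [this, hP, add_zero]
  have h1 : A + B = 0 := by
    have := hgen 1
    have e1 : x + 1 * u = x₁ := by rw [hu]; ring
    have e2 : y + 1 * v = y₁ := by rw [hv]; ring
    rw [e1, e2, hQ] at this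
    linear_combination -this
  have h2 : A * t ^ 2 + B * t = 0 := by
    have := hgen t
    have e1 : x + t * u = x₂ := by linear_combination -ht1
    have e2 : y + t * v = y₂ := by linear_combination -ht2
    rw [e1, e2, hR] at this
    exact this.symm
  have h3 : A * (t - 1) = 0 := by
    have : t * (A * (t - 1)) = 0 := by linear_combination h2 - t * h1
    rcases mul_eq_zero.mp this with h | h
    · exact absurd h ht0
    · exact h
  have hA0 : A = 0 := by
    rcases mul_eq_zero.mp h3 with h | h
    · exact h
    · exact absurd h ht1'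
  have hB0 : B = 0 := by rw [hA0] at h1; linear_combination h1
  obtain ⟨s, hs⟩ := h x y u v huv
  apply hs
  rw [hgen, hA0, hB0]
  ring

/-- Fibres of a function invariant under an involution-like map. -/
theorem two_mul_image_le {α β : Type*} [DecidableEq α] [DecidableEq β] (C : Finset α) (g : α → β)
    (ι : α → α) (hι : ∀ P ∈ C, ι P ∈ C) (hg : ∀ P ∈ C, g (ι P) = g P) :
    2 * (C.image g).card ≤ C.card + (C.filter fun P => ι P = P).card := by
  set F := C.filter fun P => ι P = P with hF
  have hC : C.card = ∑ b ∈ C.image g, (C.filter fun P => g P = b).card :=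
    Finset.card_eq_sum_card_image g C
  have hFs : F.card = ∑ b ∈ C.image g, (F.filter fun P => g P = b).card :=
    Finset.card_eq_sum_card_fiberwise fun P hP =>
      Finset.mem_image_of_mem g (Finset.mem_filter.mp hP).1
  rw [hC, hFs, ← Finset.sum_add_distrib, mul_comm, ← smul_eq_mul, ← Finset.sum_const]
  refine Finset.sum_le_sum fun b hb => ?_
  obtain ⟨P, hP, rfl⟩ := Finset.mem_image.mp hb
  by_cases h : ι P = P
  · have h1 : 0 < (C.filter fun Q => g Q = g P).card :=
      Finset.card_pos.mpr ⟨P, Finset.mem_filter.mpr ⟨hP, rfl⟩⟩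
    have h2 : 0 < (F.filter fun Q => g Q = g P).card :=
      Finset.card_pos.mpr ⟨P, Finset.mem_filter.mpr ⟨Finset.mem_filter.mpr ⟨hP, h⟩, rfl⟩⟩
    omega
  · have h1 : 2 ≤ (C.filter fun Q => g Q = g P).card := by
      rw [← Finset.card_pair h]
      apply Finset.card_le_card
      intro Q hQ
      rw [Finset.mem_insert, Finset.mem_singleton] at hQ
      rw [Finset.mem_filter]
      rcases hQ with rfl | rfl
      · exact ⟨hι P hP, hg P hP⟩
      · exact ⟨hP, rfl⟩
    omega

/-- An arc has at most two points on a line. -/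
theorem arc_line_le {C : Finset (ZMod p × ZMod p)} (hC : IsArc C) (l m k : ZMod p)
    (hlm : l ≠ 0 ∨ m ≠ 0) (F : Finset (ZMod p × ZMod p)) (hF : F ⊆ C)
    (hl : ∀ P ∈ F, l * P.1 + m * P.2 = k) : F.card ≤ 2 := by
  by_contra hc
  push Not at hc
  obtain ⟨P, hP, Q, hQ, R, hR, hPQ, hPR, hQR⟩ := Finset.two_lt_card.mp hc
  refine hC P (hF hP) Q (hF hQ) R (hF hR) hPQ hPR hQR ?_
  have h1 := hl P hP
  have h2 := hl Q hQ
  have h3 := hl R hR
  unfold cross
  rcases hlm with h | h
  · have : l * ((Q.1 - P.1) * (R.2 - P.2) - (Q.2 - P.2) * (R.1 - P.1)) = 0 := by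
      linear_combination (R.2 - P.2) * (h2 - h1) - (Q.2 - P.2) * (h3 - h1)
    rcases mul_eq_zero.mp this with h' | h'
    · exact absurd h' h
    · exact h'
  · have : m * ((Q.1 - P.1) * (R.2 - P.2) - (Q.2 - P.2) * (R.1 - P.1)) = 0 := by
      linear_combination (Q.1 - P.1) * (h3 - h1) - (R.1 - P.1) * (h2 - h1)
    rcases mul_eq_zero.mp this with h' | h'
    · exact absurd h' h
    · exact h'

/-- Rows met by a conic with `a ≠ 0`. -/
theorem rows_le (hp : p ≠ 2) {a b c d e f : ZMod p} (h : NoLine a b c d e f) (ha : a ≠ 0) :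
    2 * ((zset a b c d e f).image fun P => P.2).card ≤ p + 4 := by
  classical
  have harc := isArc_zset h
  have h1 := two_mul_image_le (zset a b c d e f) (fun P => P.2)
    (fun P => (-(b * P.2 + d) / a - P.1, P.2)) (by
      intro P hP
      rw [mem_zset] at hP ⊢
      rw [← hP]
      unfold quad
      simp only
      field_simp
      ring) (fun P _ => rfl)
  have h2 : ((zset a b c d e f).filter fun P =>
      ((-(b * P.2 + d) / a - P.1, P.2) : ZMod p × ZMod p) = P).card ≤ 2 := by
    refine arc_line_le harc (2 * a) b (-d) (Or.inl ?_) _ (Finset.filter_subset _ _) ?_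
    · refine mul_ne_zero ?_ ha
      intro h20
      apply hp
      have h3 : ((2 : ℕ) : ZMod p) = 0 := by exact_mod_cast h20
      rw [ZMod.natCast_eq_zero_iff] at h3
      exact (Nat.prime_dvd_prime_iff_eq (Fact.out) Nat.prime_two).mp h3
    · intro P hP
      have h3 := congrArg Prod.fst (Finset.mem_filter.mp hP).2
      simp only at h3
      field_simp at h3
      linear_combination -h3
  have h3 := arc_card_le harc
  omega

/-- Columns met by a conic with `c ≠ 0`. -/
theorem cols_le (hp : p ≠ 2) {a b c d e f : ZMod p} (h : NoLine a b c d e f) (hc : c ≠ 0) :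
    2 * ((zset a b c d e f).image fun P => P.1).card ≤ p + 4 := by
  classical
  have harc := isArc_zset h
  have h1 := two_mul_image_le (zset a b c d e f) (fun P => P.1)
    (fun P => (P.1, -(b * P.1 + e) / c - P.2)) (by
      intro P hP
      rw [mem_zset] at hP ⊢
      rw [← hP]
      unfold quad
      simp only
      field_simp
      ring) (fun P _ => rfl)
  have h2 : ((zset a b c d e f).filter fun P =>
      ((P.1, -(b * P.1 + e) / c - P.2) : ZMod p × ZMod p) = P).card ≤ 2 := by
    refine arc_line_le harc b (2 * c) (-e) (Or.inr ?_) _ (Finset.filter_subset _ _) ?_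
    · refine mul_ne_zero ?_ hc
      intro h20
      apply hp
      have h3 : ((2 : ℕ) : ZMod p) = 0 := by exact_mod_cast h20
      rw [ZMod.natCast_eq_zero_iff] at h3
      exact (Nat.prime_dvd_prime_iff_eq (Fact.out) Nat.prime_two).mp h3
    · intro P hP
      have h3 := congrArg Prod.snd (Finset.mem_filter.mp hP).2
      simp only at h3
      field_simp at h3
      linear_combination -h3
  have h3 := arc_card_le harc
  omega

theorem quad_hyper {K : Type*} [CommRing K] (b d e f x y : K) :
    quad 0 b 0 d e f x y = b * x * y + d * x + e * y + f := by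
  unfold quad; ring

/-- The hyperbola `b x y + d x + e y + f = 0`. -/
theorem hyper {b d e f : ZMod p} (h : NoLine 0 b 0 d e f) (hb : b ≠ 0) :
    2 * ((zset 0 b 0 d e f).image fun P => P.1 - P.2).card ≤ p + 1 ∧
    2 * ((zset 0 b 0 d e f).image fun P => P.1 + P.2).card ≤ p + 1 := by
  classical
  have harc := isArc_zset h
  -- no point with `b x + e = 0`
  have hx : ∀ P ∈ zset 0 b 0 d e f, P.1 ≠ -e / b := by
    intro P hP hPx
    rw [mem_zset] at hP
    obtain ⟨t, ht⟩ := h (-e / b) 0 0 1 (Or.inr one_ne_zero)
    apply ht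
    have h1 : quad 0 b 0 d e f (-e / b + t * 0) (0 + t * 1) = d * (-e / b) + f := by
      unfold quad; field_simp; ring
    have h2 : quad 0 b 0 d e f P.1 P.2 = d * (-e / b) + f := by
      rw [hPx]; unfold quad; field_simp; ring
    rw [h1, ← h2, hP]
  have hcard : (zset 0 b 0 d e f).card ≤ p - 1 := by
    have hinj : Set.InjOn (fun P : ZMod p × ZMod p => P.1) (zset 0 b 0 d e f : Set _) := by
      intro P hP Q hQ hPQ
      have hP' := Finset.mem_coe.mp hP
      have hQ' := Finset.mem_coe.mp hQ
      simp only at hPQ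
      refine Prod.ext hPQ ?_
      have h1 := mem_zset.mp hP'
      have h2 := mem_zset.mp hQ'
      unfold quad at h1 h2
      rw [← hPQ] at h2
      have h3 : (b * P.1 + e) * (P.2 - Q.2) = 0 := by linear_combination h1 - h2
      rcases mul_eq_zero.mp h3 with h4 | h4
      · exfalso
        apply hx P hP'
        field_simp
        linear_combination h4
      · exact sub_eq_zero.mp h4
    rw [← Finset.card_image_of_injOn hinj]
    calc _ ≤ (Finset.univ.erase (-e / b)).card := by
          apply Finset.card_le_card
          intro x hxm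
          obtain ⟨P, hP, rfl⟩ := Finset.mem_image.mp hxm
          exact Finset.mem_erase.mpr ⟨hx P hP, Finset.mem_univ _⟩
      _ = p - 1 := by rw [Finset.card_erase_of_mem (Finset.mem_univ _), Finset.card_univ, ZMod.card]
  have hp2 : 2 ≤ p := (Fact.out : p.Prime).two_le
  constructor
  · have h1 := two_mul_image_le (zset 0 b 0 d e f) (fun P => P.1 - P.2)
      (fun P => (-P.2 - (d + e) / b, -P.1 - (d + e) / b)) (by
        intro P hP
        rw [mem_zset, quad_hyper] at hP ⊢
        rw [← hP]
        simp only
        field_simp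
        ring) (fun P _ => by simp only; ring)
    have h2 : ((zset 0 b 0 d e f).filter fun P =>
        ((-P.2 - (d + e) / b, -P.1 - (d + e) / b) : ZMod p × ZMod p) = P).card ≤ 2 := by
      refine arc_line_le harc 1 1 (-((d + e) / b)) (Or.inl one_ne_zero) _
        (Finset.filter_subset _ _) ?_
      intro P hP
      have h3 := congrArg Prod.fst (Finset.mem_filter.mp hP).2
      simp only at h3
      linear_combination -h3
    omega
  · have h1 := two_mul_image_le (zset 0 b 0 d e f) (fun P => P.1 + P.2)
      (fun P => (P.2 + (d - e) / b, P.1 - (d - e) / b)) (by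
        intro P hP
        rw [mem_zset, quad_hyper] at hP ⊢
        rw [← hP]
        simp only
        field_simp
        ring) (fun P _ => by simp only; ring)
    have h2 : ((zset 0 b 0 d e f).filter fun P =>
        ((P.2 + (d - e) / b, P.1 - (d - e) / b) : ZMod p × ZMod p) = P).card ≤ 2 := by
      refine arc_line_le harc 1 (-1) ((d - e) / b) (Or.inl one_ne_zero) _
        (Finset.filter_subset _ _) ?_
      intro P hP
      have h3 := congrArg Prod.fst (Finset.mem_filter.mp hP).2
      simp only at h3
      linear_combination -h3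
    omega

end Pool.Agent.Lib_helper31.N3L
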